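import Pool.Agent.helper76.DP.Spec

set_option autoImplicit false

namespace Pool.Agent.DP

open Finset
open Pool.Agent.FR (mean Eig)
open Pool.Agent.AT (Qk Pair)
open Pool.Agent.HF (Om TC NoTC)
open Pool.Agent.IT (Ad)

open Classical in
/-- one period -/
theorem ADC_per (n : ℕ) (hn : 0 < n) (y : ℤ) : #{k ∈ range n | IsCoprime (y + ((k : ℕ) : ℤ)) (n : ℤ)} = n.totient := by
  obtain ⟨m, hm⟩ : ∃ m : ℕ, (m : ℤ) = y % n := ⟨(y % n).toNat, Int.toNat_of_nonneg (Int.emod_nonneg _ (by exact_mod_cast hn.ne'))⟩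
  have h1 : ∀ k : ℕ, IsCoprime (y + (k : ℤ)) (n : ℤ) ↔ Nat.Coprime n (m + k) := by
    intro k
    have e1 : y + (k : ℤ) = ((m + k : ℕ) : ℤ) + (n : ℤ) * (y / n) := by
      push_cast
      rw [hm]
      have := Int.emod_add_mul_ediv y n
      linarith
    rw [e1, IsCoprime.add_mul_left_left_iff, Nat.isCoprime_iff_coprime, Nat.coprime_comm]
  have h2 := Nat.filter_coprime_Ico_eq_totient n m
  rw [card_filter] at h2 ⊢
  rw [Finset.sum_Ico_eq_sum_range] at h2
  rw [← h2]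
  have e3 : m + n - m = n := by omega
  rw [e3]
  refine Finset.sum_congr rfl fun k _ => ?_
  by_cases h : Nat.Coprime n (m + k)
  · rw [if_pos h, if_pos ((h1 k).2 h)]
  · rw [if_neg h, if_neg (fun h' => h ((h1 k).1 h'))]

open Classical in
/-- several periods -/
theorem ADC_mul (n : ℕ) (hn : 0 < n) (t : ℕ) (y : ℤ) : #{k ∈ range (n * t) | IsCoprime (y + ((k : ℕ) : ℤ)) (n : ℤ)} = t * n.totient := by
  induction t with
  | zero => simp
  | succ t ih =>
    rw [card_filter] at ih ⊢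
    rw [Nat.mul_succ, Finset.sum_range_add, ih]
    have h1 := ADC_per n hn (y + ((n * t : ℕ) : ℤ))
    rw [card_filter] at h1
    have h2 : ∑ x ∈ range n, (if IsCoprime (y + ((n * t + x : ℕ) : ℤ)) (n : ℤ) then 1 else 0) = n.totient := by
      rw [← h1]
      refine Finset.sum_congr rfl fun k _ => ?_
      have e1 : y + ((n * t + k : ℕ) : ℤ) = y + ((n * t : ℕ) : ℤ) + (k : ℤ) := by push_cast; ring
      rw [e1]
    rw [h2]
    ring

theorem ADC_lo {a b : ℕ} {x : ℤ} (h : Ad a b x) : Lo a b x := by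
  obtain ⟨-, -, -, -, h1, h2, h3⟩ := h
  constructor
  · intro p hp hpab hpx
    have hpu : ¬ IsUnit (p : ℤ) := (Nat.prime_iff_prime_int.1 hp).not_unit
    rcases (Nat.Prime.dvd_mul hp).1 hpab with hpa | hpb
    · exact hpu (h1.isUnit_of_dvd' (Int.natCast_dvd_natCast.2 hpa) hpx)
    · exact hpu (h2.isUnit_of_dvd' (Int.natCast_dvd_natCast.2 hpb) hpx)
  · intro hodd
    by_contra hx
    apply h3
    refine ⟨?_, ?_, ?_⟩
    · rw [← Nat.not_even_iff_odd, even_iff_two_dvd]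
      exact fun h => hodd (Dvd.dvd.mul_right h _)
    · rw [← Nat.not_even_iff_odd, even_iff_two_dvd]
      exact fun h => hodd (Dvd.dvd.mul_left h _)
    · rw [← Int.not_even_iff_odd, even_iff_two_dvd]
      exact hx

theorem ADC_cop {n : ℕ} {x : ℤ} (h : ∀ p : ℕ, p.Prime → p ∣ n → ¬ (p : ℤ) ∣ x) : IsCoprime (n : ℤ) x := by
  rw [Int.isCoprime_iff_gcd_eq_one, Int.gcd, Int.natAbs_natCast]
  by_contra hne
  obtain ⟨p, hp, hpd⟩ := Nat.exists_prime_and_dvd hne
  have h1 := Nat.dvd_gcd_iff.1 hpd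
  exact h p hp h1.1 (Int.natCast_dvd.2 h1.2)

theorem ADC_ad {a b : ℕ} (ha : 1 ≤ a) (hb : 1 ≤ b) (hab : Nat.Coprime a b) {x : ℤ} (h : Lo a b x) (hx : x ≠ 0) : Ad a b x := by
  obtain ⟨h1, h2⟩ := h
  refine ⟨ha, hb, hx, hab, ADC_cop fun p hp hpa => h1 p hp (Dvd.dvd.mul_right hpa _),
    ADC_cop fun p hp hpb => h1 p hp (Dvd.dvd.mul_left hpb _), ?_⟩
  rintro ⟨h3, h4, h5⟩
  have h6 : Odd (a * b) := h3.mul h4
  have h7 := h2 (by
    rw [← even_iff_two_dvd, Nat.not_even_iff_odd]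
    exact h6)
  rw [← even_iff_two_dvd, ← Int.not_odd_iff_even] at h7
  exact h7 h5

theorem ADC_shift (a b : ℕ) : ∃ s : ℤ, ∀ x : ℤ, IsCoprime (x + s) ((2 * a * b : ℕ) : ℤ) → Lo a b x := by
  by_cases h2 : 2 ∣ a * b
  · refine ⟨0, fun x hx => ⟨fun p hp hpab hpx => ?_, fun h => absurd h2 h⟩⟩
    rw [add_zero] at hx
    have hpu : ¬ IsUnit (p : ℤ) := (Nat.prime_iff_prime_int.1 hp).not_unit
    have h3 : p ∣ 2 * a * b := by rw [mul_assoc]; exact Dvd.dvd.mul_left hpab _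
    exact hpu (hx.isUnit_of_dvd' hpx (Int.natCast_dvd_natCast.2 h3))
  · refine ⟨((a * b : ℕ) : ℤ), fun x hx => ⟨fun p hp hpab hpx => ?_, fun _ => ?_⟩⟩
    · have hpu : ¬ IsUnit (p : ℤ) := (Nat.prime_iff_prime_int.1 hp).not_unit
      have h3 : p ∣ 2 * a * b := by rw [mul_assoc]; exact Dvd.dvd.mul_left hpab _
      exact hpu (hx.isUnit_of_dvd' (dvd_add hpx (Int.natCast_dvd_natCast.2 hpab)) (Int.natCast_dvd_natCast.2 h3))
    · by_contra hx2
      have hpu : ¬ IsUnit (2 : ℤ) := Int.prime_two.not_unit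
      have hodd : Odd (a * b) := by
        rw [← Nat.not_even_iff_odd, even_iff_two_dvd]
        exact h2
      have hxo : Odd x := by
        rw [← Int.not_even_iff_odd, even_iff_two_dvd]
        exact hx2
      have he : Even (x + ((a * b : ℕ) : ℤ)) := hxo.add_odd (by exact_mod_cast hodd)
      have h3 : (2 : ℤ) ∣ ((2 * a * b : ℕ) : ℤ) := by
        have : 2 ∣ 2 * a * b := by rw [mul_assoc]; exact Dvd.intro _ rfl
        exact_mod_cast this
      exact hpu (hx.isUnit_of_dvd' (even_iff_two_dvd.1 he) h3)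

theorem ADC : ADC_stmt := by
  classical
  intro a b ha hb hab
  refine ⟨fun x hx => ADC_lo hx, ?_⟩
  intro L y
  obtain ⟨s, hs⟩ := ADC_shift a b
  set n := 2 * a * b with hn
  have hn0 : 0 < n := by positivity
  set t := L / n with ht
  have h1 := ADC_mul n hn0 t (y + s)
  have h2 : n * t ≤ L := Nat.mul_div_le L n
  have h3 : #{k ∈ range (n * t) | IsCoprime (y + s + ((k : ℕ) : ℤ)) (n : ℤ)} ≤
      #{k ∈ range L | Ad a b (y + ((k : ℕ) : ℤ))} + 1 := by
    have h4 : {k ∈ range (n * t) | IsCoprime (y + s + ((k : ℕ) : ℤ)) (n : ℤ)} ⊆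
        {k ∈ range L | Ad a b (y + ((k : ℕ) : ℤ))} ∪ {(-y).toNat} := by
      intro k hk
      rw [mem_filter, mem_range] at hk
      rw [mem_union, mem_filter, mem_range, mem_singleton]
      by_cases h0 : y + (k : ℤ) = 0
      · right
        omega
      · left
        refine ⟨lt_of_lt_of_le hk.1 h2, ADC_ad ha hb hab (hs _ ?_) h0⟩
        have e1 : y + (k : ℤ) + s = y + s + (k : ℤ) := by ring
        rw [e1]
        exact hk.2
    refine (card_le_card h4).trans ((card_union_le _ _).trans ?_)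
    rw [card_singleton]
  rw [h1] at h3
  have h5 : (t : ℝ) * (Nat.totient n : ℝ) ≤ (#{k ∈ range L | Ad a b (y + ((k : ℕ) : ℤ))} : ℝ) + 1 := by exact_mod_cast h3
  have hn0' : (0 : ℝ) < n := by exact_mod_cast hn0
  have h6 : (L : ℝ) / n ≤ t + 1 := by
    rw [div_le_iff₀ hn0']
    have : L < n * (t + 1) := Nat.lt_mul_div_succ L hn0
    have h7 : (L : ℝ) < n * (t + 1) := by exact_mod_cast this
    linarith
  have h8 : (Nat.totient n : ℝ) ≤ n := by exact_mod_cast Nat.totient_le n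
  have h9 : dn a b * L = (Nat.totient n : ℝ) * ((L : ℝ) / n) := by
    show (Nat.totient (2 * a * b) : ℝ) / (2 * a * b : ℕ) * L = _
    rw [← hn]
    ring
  have h10 : (n : ℝ) = 2 * a * b := by rw [hn]; push_cast; ring
  have h11 : (0 : ℝ) ≤ Nat.totient n := Nat.cast_nonneg _
  have h12 := mul_le_mul_of_nonneg_left h6 h11
  rw [h9, ← h10]
  linarith

end Pool.Agent.DP
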