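import Pool.Agent.helper96.DP.SpecD
import Pool.Agent.helper96.DP.Basic

/-!
# Project dp: simple paths from far away avoid the ends of other interface edges (module DA)
-/

namespace DP

theorem DA_tail {W : Set V} {a a' : V} {t : List V} {u v : V} (h : IsPath W (a :: a' :: t) u v) :
    a = u ∧ Adj a a' ∧ IsPath W (a' :: t) a' v := by
  obtain ⟨h1, h2, h3, h4⟩ := h
  simp only [List.head?_cons, Option.some.injEq] at h1
  rw [List.getLast?_cons_cons] at h2
  rw [List.isChain_cons_cons] at h3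
  exact ⟨h1, h3.1, rfl, h2, h3.2, fun w hw => h4 w (List.mem_cons_of_mem _ hw)⟩

/-- First time at distance `r`, from below. -/
theorem DA_first {W : Set V} {b : V} {r : ℕ} : ∀ (l : List V) (u p : V), IsPath W l u p →
    sd b u < r → r ≤ sd b p → ∃ (l₁ l₂ : List V) (w : V), l = l₁ ++ l₂ ∧ l₁ ≠ [] ∧
      IsPath W l₂ w p ∧ sd b w = r := by
  intro l
  induction l with
  | nil => intro u p h _ _; exact absurd rfl h.ne_nil
  | cons a t ih =>
    intro u p h hu hp
    cases t with
    | nil =>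
      obtain ⟨h1, h2, -, -⟩ := h
      simp only [List.head?_cons, Option.some.injEq] at h1
      simp only [List.getLast?_singleton, Option.some.injEq] at h2
      subst h1
      subst h2
      omega
    | cons a' t =>
      obtain ⟨rfl, hadj, ht⟩ := DA_tail h
      by_cases hr : sd b a' < r
      · obtain ⟨l₁, l₂, w, h1, h2, h3, h4⟩ := ih a' p ht hr hp
        exact ⟨a :: l₁, l₂, w, by rw [h1]; rfl, by simp, h3, h4⟩
      · have h5 := hadj.symm.sd_le b
        exact ⟨[a], a' :: t, a', rfl, by simp, ht, by omega⟩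

/-- First time at distance `R`: the initial piece. -/
theorem DA_init {W : Set V} {b : V} {R : ℕ} : ∀ (l : List V) (u p : V), IsPath W l u p →
    sd b u ≤ R → R ≤ sd b p → ∃ (l₁ l₂ : List V) (z : V), l = l₁ ++ l₂ ∧
      IsPath (W ∩ box b R) l₁ u z ∧ sd b z = R := by
  intro l
  induction l with
  | nil => intro u p h _ _; exact absurd rfl h.ne_nil
  | cons a t ih =>
    intro u p h hu hp
    have haW : a ∈ W := h.2.2.2 a (by simp)
    cases t with
    | nil =>
      obtain ⟨h1, h2, -, -⟩ := h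
      simp only [List.head?_cons, Option.some.injEq] at h1
      simp only [List.getLast?_singleton, Option.some.injEq] at h2
      subst h1
      subst h2
      exact ⟨[a], [], a, rfl, IsPath.singleton ⟨haW, hu⟩, by omega⟩
    | cons a' t =>
      obtain ⟨rfl, hadj, ht⟩ := DA_tail h
      by_cases hr : sd b a = R
      · exact ⟨[a], a' :: t, a, rfl, IsPath.singleton ⟨haW, hu⟩, hr⟩
      · have h5 := hadj.symm.sd_le b
        obtain ⟨l₁, l₂, z, h1, h2, h3⟩ := ih a' p ht (by omega) hp
        exact ⟨a :: l₁, l₂, z, by rw [h1]; rfl, h2.cons hadj ⟨haW, hu⟩, h3⟩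

/-- A path from `w` inside to outside contains, after `w`, a crossing from `r` to `R`. -/
theorem DA_piece {W : Set V} {b : V} {r R : ℕ} {t : List V} {w p : V}
    (h : IsPath W (w :: t) w p) (hw : sd b w < r) (hrR : r ≤ R) (hp : R ≤ sd b p) :
    ∃ (l : List V) (w' z' : V), (∀ v ∈ l, v ∈ t) ∧ IsPath (W ∩ box b R) l w' z' ∧
      sd b w' = r ∧ sd b z' = R := by
  obtain ⟨l₁, l₂, w', h1, h2, h3, h4⟩ := DA_first (w :: t) w p h hw (by omega)
  obtain ⟨l₃, l₄, z', h5, h6, h7⟩ := DA_init l₂ w' p h3 (by omega) hp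
  refine ⟨l₃, w', z', ?_, h6, h4, h7⟩
  intro v hv
  cases l₁ with
  | nil => exact absurd rfl h2
  | cons a l₁ =>
    simp only [List.cons_append, List.cons.injEq] at h1
    rw [h1.2, h5]
    exact List.mem_append_right _ (List.mem_append_left _ hv)

/-- A simple path which enters the box `box b (r - 1)` contains two disjoint crossings. -/
theorem DA_two {W : Set V} {b : V} {r R : ℕ} {l : List V} {u w p : V} (h : IsPath W l u p)
    (hnd : l.Nodup) (hw : w ∈ l) (hwr : sd b w < r) (hrR : r ≤ R) (hu : R ≤ sd b u)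
    (hp : R ≤ sd b p) : ∃ (l₁ l₂ : List V) (w₁ z₁ w₂ z₂ : V), IsPath (W ∩ box b R) l₁ w₁ z₁ ∧
      IsPath (W ∩ box b R) l₂ w₂ z₂ ∧ sd b w₁ = r ∧ sd b z₁ = R ∧ sd b w₂ = r ∧ sd b z₂ = R ∧
      l₁.Disjoint l₂ := by
  obtain ⟨s, t, rfl⟩ := List.append_of_mem hw
  have h1 : IsPath W (w :: t) w p := by
    refine ⟨rfl, ?_, (List.isChain_append.1 h.2.2.1).2.1, fun v hv =>
      h.2.2.2 v (List.mem_append_right _ hv)⟩
    have := h.2.1
    rwa [List.getLast?_append_of_ne_nil _ (by simp)] at this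
  have h2 : IsPath W (w :: s.reverse) w u := by
    have h3 := h.reverse
    rw [List.reverse_append, List.reverse_cons, List.append_assoc] at h3
    refine ⟨rfl, ?_, ?_, ?_⟩
    · have := h3.2.1
      rw [List.getLast?_append_of_ne_nil _ (by simp)] at this
      simpa using this
    · have := (List.isChain_append.1 h3.2.2.1).2.1
      simpa using this
    · intro v hv
      exact h3.2.2.2 v (List.mem_append_right _ (by simpa using hv))
  obtain ⟨l₂, w₂, z₂, a1, a2, a3, a4⟩ := DA_piece h1 hwr hrR hp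
  obtain ⟨l₁, w₁, z₁, b1, b2, b3, b4⟩ := DA_piece h2 hwr hrR hu
  refine ⟨l₁, l₂, w₁, z₁, w₂, z₂, b2, a2, b3, b4, a3, a4, ?_⟩
  intro v hv1 hv2
  have c1 : v ∈ s := List.mem_reverse.1 (b1 v hv1)
  have c2 : v ∈ w :: t := List.mem_cons_of_mem _ (a1 v hv2)
  exact (List.nodup_append.1 hnd).2.2 v c1 v c2 rfl

theorem DA_HS {s : Bool} {x : V} {n n' : ℕ} {v : V} (hv : v ∈ AN s x n n') : v ∈ HS s x n := by
  cases s
  · simp only [AN, Bool.false_eq_true, if_false] at hv
    simp only [HS, Bool.false_eq_true, if_false]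
    exact hv.1
  · simp only [AN, if_true] at hv
    simp only [HS, if_true]
    exact hv.2

/-- The arm of an end point of the edge reaches distance `R` of `b` in `HS`. -/
theorem DA_arm {s : Bool} {c : V → Bool} {x : V} {n n' R : ℕ} {b y : V} (hg : gap s n n' R)
    (hy : crX s c x n n' y) (hb : b ∈ bd x n) (hyb : sd b y ≤ R) :
    ∃ z, sd b z = R ∧ Con {v | v ∈ HS s x n ∩ box b R ∧ c v = c y} y z := by
  have hxb : sd x b = n := hb
  have h1 : ∃ p, R ≤ sd b p ∧ Con {v | v ∈ HS s x n ∧ c v = c y} y p := by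
    cases s
    · simp only [gap, Bool.false_eq_true, if_false] at hg
      simp only [crX, Bool.false_eq_true, if_false] at hy
      obtain ⟨-, p, hp, hc⟩ := hy
      have hxp : sd x p = n' := hp
      have h2 := sd_triangle x b p
      refine ⟨p, by omega, Con.mono ?_ hc⟩
      rintro v ⟨hv, hv2⟩
      refine ⟨?_, hv2⟩
      simp only [HS, Bool.false_eq_true, if_false]
      exact hv.1
    · simp only [gap, if_true] at hg
      simp only [crX, if_true] at hy
      obtain ⟨-, p, hp, hc⟩ := hy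
      have hxp : sd x p = n' := hp
      have h2 := sd_triangle x p b
      have h3 := sd_comm b p
      refine ⟨p, by omega, Con.mono ?_ hc⟩
      rintro v ⟨hv, hv2⟩
      refine ⟨?_, hv2⟩
      simp only [HS, if_true]
      exact hv.2
  obtain ⟨p, hp, hc⟩ := h1
  obtain ⟨z, hz, h2, -⟩ := hc.exit hyb hp
  refine ⟨z, hz, h2.mono ?_⟩
  rintro v ⟨⟨h3, h4⟩, h5⟩
  exact ⟨⟨h3, h5⟩, h4⟩

theorem DA (hML : ML_stmt) (hCG : CG3_stmt) : DA_stmt := by
  intro s c k x n n' r₁ r₂ he hn' hg h1 h12 h2n hB a b hab hca hcb hxa hxb u p l hu hp hl hnd w hw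
  by_contra hlt
  rw [not_le] at hlt
  apply hB
  have hb : b ∈ bd x n := by
    rcases hab with h | h
    · exact h.2.1
    · exact h.1
  have hadj : Adj b a := by
    rcases hab with h | h
    · exact (hCG x n a b (by omega) h).1.symm
    · exact (hCG x n b a (by omega) h).1
  have hba : sd b a ≤ r₂ := by
    have := hadj.sd
    omega
  have hbp : r₂ ≤ sd b p := by
    have hxb' : sd x b = n := hb
    cases s
    · simp only [gap, Bool.false_eq_true, if_false] at hg
      simp only [far, Bool.false_eq_true, if_false] at hp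
      have h2 := sd_triangle x b p
      omega
    · simp only [gap, if_true] at hg
      simp only [far, if_true] at hp
      have h2 := sd_triangle x p b
      have h3 := sd_comm b p
      omega
  obtain ⟨z, hz, hcz⟩ := DA_arm hg hxa hb hba
  obtain ⟨z', hz', hcz'⟩ := DA_arm hg hxb hb (by simp)
  rw [hca] at hcz
  rw [hcb] at hcz'
  obtain ⟨l₁, l₂, w₁, z₁, w₂, z₂, p1, p2, q1, q2, q3, q4, hdis⟩ :=
    DA_two hl hnd hw hlt h12.le hu hbp
  have hW : ({v | v ∈ HS s x n ∧ c v = k} ∩ box b r₂ : Set V) ⊆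
      {v | v ∈ HS s x n ∩ box b r₂ ∧ c v = k} := by
    rintro v ⟨⟨h3, h4⟩, h5⟩
    exact ⟨⟨h3, h5⟩, h4⟩
  obtain ⟨m, y, hm, hy, hmd⟩ := hML _ a z w₁ z₁ w₂ z₂ l₁ l₂ hcz (p1.mono hW) (p2.mono hW) hdis
  have hyR : sd b y = r₂ := by
    rcases hy with rfl | rfl | rfl
    · exact hz
    · exact q2
    · exact q4
  refine ⟨a, b, k, hab, hca, hcb, ⟨z', hz', hcz'⟩, ?_⟩
  rcases hmd with h3 | h3
  · exact ⟨m, l₁, y, w₁, z₁, hyR, q1, q2, hm, p1.mono hW, h3⟩
  · exact ⟨m, l₂, y, w₂, z₂, hyR, q3, q4, hm, p2.mono hW, h3⟩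

end DP
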